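import Pool.Agent.GTO.StmtsB

/-! Squad GTO: row MIS. -/

namespace Pool.Agent.GTO.H89

open Finset Pool.Agent.GTO
open scoped Classical

theorem mis (ct6 : Ct6Stmt) : MisStmt := by
  intro ι _ a c G _ φ H hC
  obtain ⟨h1, -, -, -, -⟩ := ct6 ι a c G φ H hC
  have hinj : ∀ i ∈ QQ a c φ H, ∀ j ∈ QQ a c φ H, φ (a i) = φ (a j) → i = j := by
    intro i hi j hj h
    by_contra hij
    exact hC.pi i j hij ((hC.grp.par (a i) (a j) (Finset.mem_filter.1 hi).2.1
      (Finset.mem_filter.1 hj).2.1).1 h)
  have key : ∀ μ ∈ MM a c φ H, (QQ a c φ H).card ≤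
      ((MISo a c φ H).filter fun p => -φ (a p.1) - φ (a p.2) = μ).card +
        ((MM a c φ H).card + 6) := by
    intro μ hμ
    have hμH : μ ∈ H := (Finset.mem_filter.1 hμ).1
    have hsub : QQ a c φ H ⊆
        ((MISo a c φ H).filter fun p => -φ (a p.1) - φ (a p.2) = μ).image Prod.fst ∪
          (((QQ a c φ H).filter fun i => -μ - φ (a i) ∈ MM a c φ H) ∪
            ((QQ a c φ H).filter fun i => φ (a i) + φ (a i) + μ = 0)) := by
      intro i hi
      rw [Finset.mem_union, Finset.mem_union, Finset.mem_filter, Finset.mem_filter,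
        Finset.mem_image]
      by_cases hm : -μ - φ (a i) ∈ MM a c φ H
      · exact Or.inr (Or.inl ⟨hi, hm⟩)
      by_cases h2 : φ (a i) + φ (a i) + μ = 0
      · exact Or.inr (Or.inr ⟨hi, h2⟩)
      left
      have hH : -μ - φ (a i) ∈ H := hC.clo μ hμH (φ (a i)) (Finset.mem_filter.1 hi).2.2
      have : ∃ j ∈ QQ a c φ H, φ (a j) = -μ - φ (a i) := by
        by_contra hno
        push Not at hno
        exact hm (Finset.mem_filter.2 ⟨hH, hno⟩)
      obtain ⟨j, hj, hjφ⟩ := this
      have hμe : -φ (a i) - φ (a j) = μ := by rw [hjφ]; abel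
      refine ⟨(i, j), Finset.mem_filter.2 ⟨Finset.mem_filter.2 ⟨Finset.mem_univ _, hi, hj, ?_, ?_⟩,
        hμe⟩, rfl⟩
      · intro hij
        simp only at hij
        apply h2
        rw [← hij] at hjφ
        have : φ (a i) + φ (a i) + μ = φ (a i) + μ - (-φ (a i)) := by abel
        rw [this]
        nth_rewrite 1 [hjφ]
        abel
      · show -φ (a i) - φ (a j) ∈ MM a c φ H
        rw [hμe]; exact hμ
    have hA : ((QQ a c φ H).filter fun i => -μ - φ (a i) ∈ MM a c φ H).card ≤
        (MM a c φ H).card := by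
      apply Finset.card_le_card_of_injOn (fun i => -μ - φ (a i))
      · intro i hi
        exact (Finset.mem_filter.1 hi).2
      · intro i hi j hj hij
        have hi' := (Finset.mem_filter.1 (Finset.mem_coe.1 hi)).1
        have hj' := (Finset.mem_filter.1 (Finset.mem_coe.1 hj)).1
        exact hinj i hi' j hj' (sub_right_inj.1 hij)
    calc (QQ a c φ H).card ≤ _ := Finset.card_le_card hsub
      _ ≤ _ := Finset.card_union_le _ _
      _ ≤ _ := Nat.add_le_add Finset.card_image_le
        ((Finset.card_union_le _ _).trans (Nat.add_le_add hA (h1 μ hμH)))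
  calc (MM a c φ H).card * (QQ a c φ H).card
      = ∑ μ ∈ MM a c φ H, (QQ a c φ H).card := by rw [Finset.sum_const, smul_eq_mul]
    _ ≤ ∑ μ ∈ MM a c φ H,
        (((MISo a c φ H).filter fun p => -φ (a p.1) - φ (a p.2) = μ).card +
          ((MM a c φ H).card + 6)) := Finset.sum_le_sum key
    _ = (MISo a c φ H).card + (MM a c φ H).card * ((MM a c φ H).card + 6) := by
      rw [Finset.sum_add_distrib, Finset.sum_const, smul_eq_mul]
      congr 1
      symm
      apply Finset.card_eq_sum_card_fiberwise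
      intro p hp
      exact (Finset.mem_filter.1 hp).2.2.2.2

end Pool.Agent.GTO.H89
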